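import Pool.Agent.Helper56.Un.E8Stmts

set_option autoImplicit false

/-!
# The cusps of type 4 (Eisenstein lattice over `E₈`)
-/

namespace Pool.Agent.Helper19.Un

theorem et4_sq8_nonneg (z : Fin 8 → ℝ) (A : Fin 8 → ℤ) : 0 ≤ sq8 z A :=
  Finset.sum_nonneg fun _ _ => sq_nonneg _

/-- the bound without the division -/
theorem et4_u {H : ℝ} (hH : 3 / 2 ≤ H) (d V : ℝ) :
    (3 / 8 * d + H) ^ 2 + 3 * V ^ 2 = 3 * (H * u4 H d V) := by
  rw [u4]
  field_simp

/-- the second hinge is never active -/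
theorem et4_wt {H d V : ℝ} (hH : 3 / 2 ≤ H) (hd : 0 ≤ d) (h : 1 / H ≤ u4 H d V) :
    wt (u4 H d V) = max 0 (77 / 100 - u4 H d V) := by
  have h0 : 0 < H := by linarith
  have h1 : 1 ≤ H * u4 H d V := by
    rw [div_le_iff₀ h0] at h
    linarith
  have h2 := et4_u hH d V
  have h3 : H ^ 2 ≤ 3 * (H * u4 H d V) := by nlinarith [mul_nonneg hd h0.le, sq_nonneg d, sq_nonneg V]
  have h4 : 14 / 25 ≤ u4 H d V := by
    by_contra hc
    push Not at hc
    have h5 : H * u4 H d V < H * (14 / 25) := mul_lt_mul_of_pos_left hc h0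
    nlinarith
  rw [wt, max_eq_left (by linarith : 14 / 25 - u4 H d V ≤ 0), add_zero]

/-- `max 0 M ≤ c * max 0 (1 - d)` -/
theorem et4_max {M c d : ℝ} (hc : 0 ≤ c) (h : M ≤ c * (1 - d)) (h' : 1 ≤ d → M ≤ 0) :
    max 0 M ≤ c * max 0 (1 - d) := by
  apply max_le
  · exact mul_nonneg hc (le_max_left _ _)
  · rcases le_total d 1 with h1 | h1
    · rw [max_eq_right (by linarith : 0 ≤ 1 - d)]
      exact h
    · rw [max_eq_left (by linarith : 1 - d ≤ 0), mul_zero]
      exact h' h1

theorem et4_b4_nonneg (H : ℝ) : 0 ≤ b4 H := by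
  unfold b4
  split_ifs <;> norm_num

/-- one vertical -/
theorem et4_one {H d V : ℝ} (hH : 3 / 2 ≤ H) (hd : 0 ≤ d) (h : 1 / H ≤ u4 H d V) :
    max 0 (77 / 100 - u4 H d V) ≤ b4 H * max 0 (1 - d) := by
  have h0 : 0 < H := by linarith
  have h1 : 1 ≤ H * u4 H d V := by
    rw [div_le_iff₀ h0] at h
    linarith
  have h2 := et4_u hH d V
  have hV := sq_nonneg V
  have hHd : 0 ≤ H * d := mul_nonneg h0.le hd
  generalize u4 H d V = u at *
  have hq : (3 / 8 * d + H) ^ 2 ≤ 3 * (H * u) := by linarith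
  apply et4_max (et4_b4_nonneg H)
  · unfold b4
    split_ifs with k1 k2 k3 k4
    · by_contra hc
      push Not at hc
      have h3 : H * u < H * (77 / 100 - 7 / 25 * (1 - d)) :=
        mul_lt_mul_of_pos_left (by linarith) h0
      nlinarith [sq_nonneg (3 / 8 * d - 3 / 25 * H), mul_nonneg h0.le (by linarith : 0 ≤ H - 3 / 2)]
    · push Not at k1
      by_contra hc
      push Not at hc
      have h3 : H * u < H * (77 / 100 - 1 / 5 * (1 - d)) :=
        mul_lt_mul_of_pos_left (by linarith) h0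
      rcases le_total (171 / 100) H with h4 | h4
      · nlinarith [sq_nonneg d, mul_nonneg h0.le (by linarith : 0 ≤ H - 171 / 100)]
      · rcases le_total d (7 / 100) with h5 | h5
        · nlinarith
        · nlinarith [sq_nonneg d, mul_nonneg (by linarith : 0 ≤ H - 17 / 10)
            (by linarith : 0 ≤ d - 7 / 100)]
    · push Not at k2
      by_contra hc
      push Not at hc
      have h3 : H * u < H * (77 / 100 - 7 / 50 * (1 - d)) :=
        mul_lt_mul_of_pos_left (by linarith) h0
      nlinarith [sq_nonneg d, mul_nonneg h0.le (by linarith : 0 ≤ H - 19 / 10)]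
    · push Not at k3
      by_contra hc
      push Not at hc
      have h3 : H * u < H * (77 / 100 - 11 / 100 * (1 - d)) :=
        mul_lt_mul_of_pos_left (by linarith) h0
      nlinarith [sq_nonneg d, mul_nonneg h0.le (by linarith : 0 ≤ H - 2)]
    · push Not at k4
      by_contra hc
      push Not at hc
      have h3 : H * u < H * (77 / 100 - 0 * (1 - d)) :=
        mul_lt_mul_of_pos_left (by linarith) h0
      nlinarith [sq_nonneg d, mul_nonneg h0.le (by linarith : 0 ≤ H - 12 / 5)]
  · intro hd1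
    by_contra hc
    push Not at hc
    have h3 : H * u < H * (77 / 100) := mul_lt_mul_of_pos_left (by linarith) h0
    nlinarith [sq_nonneg (d - 1), mul_nonneg h0.le (by linarith : 0 ≤ d - 1),
      mul_nonneg h0.le (by linarith : 0 ≤ H - 3 / 2)]

/-- two verticals -/
theorem et4_two {H d V W : ℝ} (hH : 3 / 2 ≤ H) (hd : 0 ≤ d) (hVW : 1 / 2 ≤ V ^ 2 + W ^ 2) :
    max 0 ((77 / 100 - u4 H d V) + (77 / 100 - u4 H d W)) ≤ b4 H * max 0 (1 - d) := by
  have h0 : 0 < H := by linarith
  have h2 := et4_u hH d V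
  have h2' := et4_u hH d W
  have hHd : 0 ≤ H * d := mul_nonneg h0.le hd
  generalize u4 H d V = u at *
  generalize u4 H d W = u' at *
  have hq : 2 * (3 / 8 * d + H) ^ 2 + 3 / 2 ≤ 3 * (H * (u + u')) := by linarith
  apply et4_max (et4_b4_nonneg H)
  · unfold b4
    split_ifs with k1 k2 k3 k4
    · by_contra hc
      push Not at hc
      have h3 : H * (u + u') < H * (77 / 50 - 7 / 25 * (1 - d)) :=
        mul_lt_mul_of_pos_left (by linarith) h0
      nlinarith [sq_nonneg d, mul_nonneg h0.le (by linarith : 0 ≤ H - 3 / 2)]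
    · push Not at k1
      by_contra hc
      push Not at hc
      have h3 : H * (u + u') < H * (77 / 50 - 1 / 5 * (1 - d)) :=
        mul_lt_mul_of_pos_left (by linarith) h0
      nlinarith [sq_nonneg d, mul_nonneg h0.le (by linarith : 0 ≤ H - 17 / 10)]
    · push Not at k2
      by_contra hc
      push Not at hc
      have h3 : H * (u + u') < H * (77 / 50 - 7 / 50 * (1 - d)) :=
        mul_lt_mul_of_pos_left (by linarith) h0
      nlinarith [sq_nonneg d, mul_nonneg h0.le (by linarith : 0 ≤ H - 19 / 10)]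
    · push Not at k3
      by_contra hc
      push Not at hc
      have h3 : H * (u + u') < H * (77 / 50 - 11 / 100 * (1 - d)) :=
        mul_lt_mul_of_pos_left (by linarith) h0
      nlinarith [sq_nonneg d, mul_nonneg h0.le (by linarith : 0 ≤ H - 2)]
    · push Not at k4
      by_contra hc
      push Not at hc
      have h3 : H * (u + u') < H * (77 / 50 - 0 * (1 - d)) :=
        mul_lt_mul_of_pos_left (by linarith) h0
      nlinarith [sq_nonneg d, mul_nonneg h0.le (by linarith : 0 ≤ H - 12 / 5)]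
  · intro hd1
    by_contra hc
    push Not at hc
    have h3 : H * (u + u') < H * (77 / 50) := mul_lt_mul_of_pos_left (by linarith) h0
    nlinarith [sq_nonneg (d - 1), mul_nonneg h0.le (by linarith : 0 ≤ d - 1),
      mul_nonneg h0.le (by linarith : 0 ≤ H - 3 / 2), sq_nonneg (H - 3 / 2)]

/-- active verticals are short -/
theorem et4_V {H d V : ℝ} (hH : 3 / 2 ≤ H) (hd : 0 ≤ d) (h : u4 H d V < 77 / 100) :
    |V| < 1 := by
  have h2 := et4_u hH d V
  have h3 : H * u4 H d V < H * (77 / 100) := mul_lt_mul_of_pos_left h (by linarith)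
  have h4 : V ^ 2 < 1 := by
    nlinarith [sq_nonneg (H - 231 / 200), mul_nonneg hd (by linarith : (0 : ℝ) ≤ H), sq_nonneg d]
  exact (sq_lt_one_iff_abs_lt_one V).1 h4

/-- all verticals over one point -/
theorem et4_fib {H d v : ℝ} (hH : 3 / 2 ≤ H) (hd : 0 ≤ d) (K : Finset ℤ)
    (hK : ∀ k ∈ K, 1 / H ≤ u4 H d (v + k)) :
    ∑ k ∈ K, wt (u4 H d (v + k)) ≤ b4 H * max 0 (1 - d) := by
  classical
  have h1 : ∑ k ∈ K, wt (u4 H d (v + k)) =
      ∑ k ∈ K.filter (fun k : ℤ => u4 H d (v + k) < 77 / 100), (77 / 100 - u4 H d (v + k)) := by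
    rw [Finset.sum_filter]
    apply Finset.sum_congr rfl
    intro k hk
    rw [et4_wt hH hd (hK k hk)]
    split_ifs with h
    · rw [max_eq_right (by linarith)]
    · rw [max_eq_left (by linarith)]
  rw [h1]
  have hcard : (K.filter (fun k : ℤ => u4 H d (v + k) < 77 / 100)).card ≤ 2 := by
    by_contra hc
    push Not at hc
    obtain ⟨a, ha, b, hb, c, hc', hab, hac, hbc⟩ := Finset.two_lt_card.1 hc
    have ha1 := et4_V hH hd (Finset.mem_filter.1 ha).2
    have hb1 := et4_V hH hd (Finset.mem_filter.1 hb).2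
    have hc1 := et4_V hH hd (Finset.mem_filter.1 hc').2
    rw [abs_lt] at ha1 hb1 hc1
    have e1 : (a : ℝ) - b < 2 := by linarith
    have e2 : (b : ℝ) - a < 2 := by linarith
    have e3 : (a : ℝ) - c < 2 := by linarith
    have e4 : (c : ℝ) - a < 2 := by linarith
    have e5 : (b : ℝ) - c < 2 := by linarith
    have e6 : (c : ℝ) - b < 2 := by linarith
    have f1 : a - b < 2 := by exact_mod_cast e1
    have f2 : b - a < 2 := by exact_mod_cast e2
    have f3 : a - c < 2 := by exact_mod_cast e3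
    have f4 : c - a < 2 := by exact_mod_cast e4
    have f5 : b - c < 2 := by exact_mod_cast e5
    have f6 : c - b < 2 := by exact_mod_cast e6
    omega
  have hb : 0 ≤ b4 H * max 0 (1 - d) := mul_nonneg (et4_b4_nonneg H) (le_max_left _ _)
  rcases Nat.lt_or_ge (K.filter (fun k : ℤ => u4 H d (v + k) < 77 / 100)).card 2 with h2 | h2
  · rcases Nat.lt_or_ge (K.filter (fun k : ℤ => u4 H d (v + k) < 77 / 100)).card 1 with h3 | h3
    · have h4 : K.filter (fun k : ℤ => u4 H d (v + k) < 77 / 100) = ∅ :=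
        Finset.card_eq_zero.1 (by omega)
      rw [h4, Finset.sum_empty]
      exact hb
    · obtain ⟨a, ha⟩ := Finset.card_eq_one.1 (by omega :
        (K.filter (fun k : ℤ => u4 H d (v + k) < 77 / 100)).card = 1)
      have ha' : a ∈ K.filter (fun k : ℤ => u4 H d (v + k) < 77 / 100) := by
        rw [ha]; exact Finset.mem_singleton_self a
      rw [ha, Finset.sum_singleton]
      exact (le_max_right _ _).trans (et4_one hH hd (hK a (Finset.mem_filter.1 ha').1))
  · obtain ⟨a, b, hab, hs⟩ := Finset.card_eq_two.1 (by omega :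
      (K.filter (fun k : ℤ => u4 H d (v + k) < 77 / 100)).card = 2)
    rw [hs, Finset.sum_pair hab]
    refine (le_max_right _ _).trans (et4_two hH hd ?_)
    have h3 : (1 : ℝ) ≤ ((a : ℝ) - b) ^ 2 := by
      have : (1 : ℤ) ≤ (a - b) ^ 2 := by
        have h4 : a - b ≠ 0 := sub_ne_zero.2 hab
        have := sq_pos_of_ne_zero h4
        omega
      exact_mod_cast this
    nlinarith [sq_nonneg ((v + a) + (v + b))]

theorem st_ET4 (hKER : ST_EKER) : ST_ET4 := by
  classical
  intro H z v hH G hG hu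
  have hS : ∑ A ∈ G.image Prod.fst, max 0 (1 - sq8 z A) ≤ 1 := by
    have h1 := hKER z (G.image Prod.fst) (by
      intro A hA
      obtain ⟨g, hg, rfl⟩ := Finset.mem_image.1 hA
      exact hG g hg) 1 le_rfl (by norm_num)
    linarith
  have h2 : ∑ g ∈ G, wt (u4 H (sq8 z g.1) (v g.1 + g.2)) =
      ∑ A ∈ G.image Prod.fst, ∑ g ∈ G.filter (fun g => g.1 = A),
        wt (u4 H (sq8 z g.1) (v g.1 + g.2)) :=
    (Finset.sum_fiberwise_of_maps_to (fun g hg => Finset.mem_image_of_mem _ hg) _).symm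
  have h3 : ∀ A ∈ G.image Prod.fst, ∑ g ∈ G.filter (fun g => g.1 = A),
      wt (u4 H (sq8 z g.1) (v g.1 + g.2)) ≤ b4 H * max 0 (1 - sq8 z A) := by
    intro A _
    have h4 := et4_fib (v := v A) hH (et4_sq8_nonneg z A)
      ((G.filter (fun g => g.1 = A)).image Prod.snd) (by
        intro k hk
        obtain ⟨g, hg, rfl⟩ := Finset.mem_image.1 hk
        obtain ⟨hg1, hg2⟩ := Finset.mem_filter.1 hg
        have := hu g hg1
        rwa [hg2] at this)
    rw [Finset.sum_image (by
      intro g hg g' hg' h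
      have e1 : g.1 = A := (Finset.mem_filter.1 hg).2
      have e2 : g'.1 = A := (Finset.mem_filter.1 hg').2
      exact Prod.ext (e1.trans e2.symm) h)] at h4
    refine le_trans (le_of_eq (Finset.sum_congr rfl ?_)) h4
    intro g hg
    rw [(Finset.mem_filter.1 hg).2]
  rw [h2]
  refine (Finset.sum_le_sum h3).trans ?_
  rw [← Finset.mul_sum]
  calc b4 H * ∑ A ∈ G.image Prod.fst, max 0 (1 - sq8 z A) ≤ b4 H * 1 :=
        mul_le_mul_of_nonneg_left hS (et4_b4_nonneg H)
    _ = b4 H := mul_one _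

end Pool.Agent.Helper19.Un
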